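import Mathlib

set_option autoImplicit false

/-!
The class of `k`-colourable graphs (`k ≥ 1`) is described by a finite set of circularly ordered
graphs if and only if `k = 1`.

Idea for `k ≥ 2`.  Let `F` be finite with all members on at most `s` vertices, put `q = s + 1`.
The circular clique `K_{(kq+1)/q}` is not `k`-colourable, so some member `P` of `F` occurs in its
natural circular ordering; `P` misses a vertex, and after a rotation `P` lies in the circularly
ordered graph `Z` obtained by deleting one vertex, which is made of `k` consecutive independent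
arcs of `q` vertices.  On the other hand there is a `k`-partite graph every circular ordering of
which contains an induced copy of `Z`: its parts are `X_1`, `X_2`, ... where `X_{i+1}` consists of
(copies of) all subsets of `X_1 ∪ ... ∪ X_i`, joined by membership, and the copy is found by
passing to separated chunks of the parts and a counting (shattering) argument.
-/

namespace Pool.Agent.Results.MP_c7ad22_co.CircularObstructions

open Finset


/-- Counting: sets avoiding a prescribed trace on each of several disjoint sets. -/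
lemma card_avoid {V ι : Type} [Fintype V] [DecidableEq V] [DecidableEq ι] (t : ℕ)
    (T A : ι → Finset V) (I : Finset ι)
    (hT : ∀ r ∈ I, (T r).card ≤ t) (hA : ∀ r ∈ I, A r ⊆ T r)
    (hdisj : ∀ r ∈ I, ∀ r' ∈ I, r ≠ r' → Disjoint (T r) (T r')) :
    ((univ : Finset (Finset V)).filter fun S => ∀ r ∈ I, S ∩ T r ≠ A r).card * (2 ^ t) ^ I.card
      ≤ (2 ^ t - 1) ^ I.card * 2 ^ Fintype.card V := by
  induction I using Finset.induction_on with
  | empty => simp
  | insert r₀ I hr₀ ih =>
    have ih' := ih (fun r hr => hT r (mem_insert_of_mem hr)) (fun r hr => hA r (mem_insert_of_mem hr))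
      (fun r hr r' hr' => hdisj r (mem_insert_of_mem hr) r' (mem_insert_of_mem hr'))
    set X := (univ : Finset (Finset V)).filter fun S => ∀ r ∈ I, S ∩ T r ≠ A r with hX
    set E := X.filter fun S => S ∩ T r₀ = A r₀ with hE
    have h1 : ((univ : Finset (Finset V)).filter fun S => ∀ r ∈ insert r₀ I, S ∩ T r ≠ A r)
        = X \ E := by
      ext S
      simp only [mem_filter, mem_univ, true_and, mem_sdiff, hX, hE, mem_insert, forall_eq_or_imp]
      tauto
    have hEX : E ⊆ X := filter_subset _ _
    have h2 : X.card ≤ E.card * 2 ^ t := by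
      have hinj : X.card ≤ (E ×ˢ (T r₀).powerset).card := by
        refine Finset.card_le_card_of_injOn (fun S => ((S \ T r₀) ∪ A r₀, S ∩ T r₀)) ?_ ?_
        · intro S hS
          have hS' : S ∈ X := hS
          rw [hX, mem_filter] at hS'
          simp only [coe_product, Set.mem_prod, mem_coe, mem_powerset, inter_subset_right, and_true]
          rw [hE, mem_filter, hX, mem_filter]
          refine ⟨⟨mem_univ _, fun r hr => ?_⟩, ?_⟩
          · have hd := hdisj r₀ (mem_insert_self _ _) r (mem_insert_of_mem hr)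
              (fun h => hr₀ (h ▸ hr))
            have hA0 := hA r₀ (mem_insert_self _ _)
            have : ((S \ T r₀) ∪ A r₀) ∩ T r = S ∩ T r := by
              ext x
              simp only [mem_inter, mem_union, mem_sdiff]
              constructor
              · rintro ⟨(⟨hx1, _⟩ | hx1), hx2⟩
                · exact ⟨hx1, hx2⟩
                · exact absurd hx2 (Finset.disjoint_left.mp hd (hA0 hx1))
              · rintro ⟨hx1, hx2⟩
                exact ⟨Or.inl ⟨hx1, Finset.disjoint_right.mp hd hx2⟩, hx2⟩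
            rw [this]
            exact hS'.2 r hr
          · have hA0 := hA r₀ (mem_insert_self _ _)
            ext x
            simp only [mem_inter, mem_union, mem_sdiff]
            constructor
            · rintro ⟨(⟨_, hx1⟩ | hx1), hx2⟩
              · exact absurd hx2 hx1
              · exact hx1
            · intro hx
              exact ⟨Or.inr hx, hA0 hx⟩
        · intro S _ S' _ hSS
          simp only [Prod.mk.injEq] at hSS
          obtain ⟨hs1, hs2⟩ := hSS
          have hA0 := hA r₀ (mem_insert_self _ _)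
          ext x
          by_cases hx : x ∈ T r₀
          · have := Finset.ext_iff.mp hs2 x
            simp only [mem_inter, hx, and_true] at this
            exact this
          · have := Finset.ext_iff.mp hs1 x
            have hxA : x ∉ A r₀ := fun h => hx (hA0 h)
            simp only [mem_union, mem_sdiff, hx, not_false_eq_true, and_true, hxA, or_false] at this
            exact this
      rw [card_product, card_powerset] at hinj
      refine hinj.trans (Nat.mul_le_mul_left _ ?_)
      exact Nat.pow_le_pow_right (by norm_num) (hT r₀ (mem_insert_self _ _))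
    rw [h1, card_sdiff_of_subset hEX, card_insert_of_notMem hr₀, pow_succ, pow_succ]
    have h3 : E.card ≤ X.card := card_le_card hEX
    have h4 : (X.card - E.card) * 2 ^ t ≤ (2 ^ t - 1) * X.card := by
      rw [Nat.sub_mul, Nat.sub_mul, one_mul, mul_comm (2 ^ t) X.card]
      exact Nat.sub_le_sub_left h2 _
    calc (X.card - E.card) * ((2 ^ t) ^ I.card * 2 ^ t)
        = ((X.card - E.card) * 2 ^ t) * (2 ^ t) ^ I.card := by ring
      _ ≤ ((2 ^ t - 1) * X.card) * (2 ^ t) ^ I.card := Nat.mul_le_mul_right _ h4
      _ = (2 ^ t - 1) * (X.card * (2 ^ t) ^ I.card) := by ring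
      _ ≤ (2 ^ t - 1) * ((2 ^ t - 1) ^ I.card * 2 ^ Fintype.card V) := Nat.mul_le_mul_left _ ih'
      _ = (2 ^ t - 1) ^ I.card * (2 ^ t - 1) * 2 ^ Fintype.card V := by ring

/-- The universal property: `G` is `k`-partite with parts of size at least `n₀`, and in every
choice of disjoint subsets `F i j` of positive density in part `i` there is a transversal inducing
any prescribed adjacencies between different parts. -/
def Universal (k m D n₀ : ℕ) (V : Type) [Fintype V] [DecidableEq V] (G : SimpleGraph V)
    (p : V → Fin k) : Prop :=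
  (∀ u v, G.Adj u v → p u ≠ p v) ∧
  (∀ i, n₀ ≤ (univ.filter fun v => p v = i).card) ∧
  ∀ F : Fin k → Fin m → Finset V, (∀ i j, ∀ v ∈ F i j, p v = i) →
    (∀ i j j', j ≠ j' → Disjoint (F i j) (F i j')) →
    (∀ i j, (univ.filter fun v => p v = i).card ≤ D * (F i j).card) →
    ∀ P : Fin k → Fin m → Fin k → Fin m → Prop, (∀ i j i' j', P i j i' j' ↔ P i' j' i j) →
    ∃ x : Fin k → Fin m → V, (∀ i j, x i j ∈ F i j) ∧
      ∀ i j i' j', i ≠ i' → (G.Adj (x i j) (x i' j') ↔ P i j i' j')

lemma many_tuples {k m D R : ℕ} {V : Type} [Fintype V] [DecidableEq V] {G : SimpleGraph V}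
    {p : V → Fin k} (hU : Universal k m (2 * D) (2 * D * R) V G p)
    (F : Fin k → Fin m → Finset V) (hF : ∀ i j, ∀ v ∈ F i j, p v = i)
    (hFd : ∀ i j j', j ≠ j' → Disjoint (F i j) (F i j'))
    (hFD : ∀ i j, (univ.filter fun v => p v = i).card ≤ D * (F i j).card)
    (P : Fin k → Fin m → Fin k → Fin m → Prop) (hP : ∀ i j i' j', P i j i' j' ↔ P i' j' i j) :
    ∀ r ≤ R, ∃ X : Fin r → Fin k → Fin m → V, (∀ a i j, X a i j ∈ F i j) ∧
      (∀ a b i j, a ≠ b → X a i j ≠ X b i j) ∧
      ∀ a i j i' j', i ≠ i' → (G.Adj (X a i j) (X a i' j') ↔ P i j i' j') := by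
  intro r
  induction r with
  | zero => intro _; exact ⟨fun a => a.elim0, fun a => a.elim0, fun a => a.elim0, fun a => a.elim0⟩
  | succ r ih =>
    intro hr
    obtain ⟨X, hX1, hX2, hX3⟩ := ih (by omega)
    let F' : Fin k → Fin m → Finset V := fun i j => F i j \ (univ.image fun a => X a i j)
    have hcard : ∀ i j, (F i j).card ≤ (F' i j).card + R := by
      intro i j
      have h1 : (univ.image fun a => X a i j).card ≤ R := by
        refine card_image_le.trans ?_
        simp; omega
      have h2 := Finset.card_le_card_sdiff_add_card (s := F i j) (t := univ.image fun a => X a i j)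
      have h3 : F' i j = F i j \ (univ.image fun a => X a i j) := rfl
      rw [h3]
      omega
    obtain ⟨x, hx1, hx2⟩ := hU.2.2 F' (fun i j v hv => hF i j v (sdiff_subset hv))
      (fun i j j' hjj => (hFd i j j' hjj).mono sdiff_subset sdiff_subset)
      (fun i j => by
        have h1 := hcard i j
        have h2 := hFD i j
        have h3 := hU.2.1 i
        have h4 : D * (F i j).card ≤ D * ((F' i j).card + R) := Nat.mul_le_mul_left _ h1
        have h5 : 2 * D * (F' i j).card = 2 * (D * (F' i j).card) := by ring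
        have h6 : 2 * D * R = 2 * (D * R) := by ring
        have h7 : D * ((F' i j).card + R) = D * (F' i j).card + D * R := by ring
        omega) P hP
    refine ⟨Fin.snoc (α := fun _ => Fin k → Fin m → V) X x, ?_, ?_, ?_⟩
    · intro a i j
      refine Fin.lastCases ?_ (fun a => ?_) a
      · rw [Fin.snoc_last]; exact sdiff_subset (hx1 i j)
      · rw [Fin.snoc_castSucc]; exact hX1 a i j
    · have hne : ∀ (a : Fin r) i j, X a i j ≠ x i j := by
        intro a i j h
        have := (mem_sdiff.mp (hx1 i j)).2
        exact this (mem_image.mpr ⟨a, mem_univ _, h⟩)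
      intro a b i j
      refine Fin.lastCases ?_ (fun a => ?_) a
      · refine Fin.lastCases ?_ (fun b => ?_) b
        · intro h; exact absurd rfl h
        · intro _; rw [Fin.snoc_last, Fin.snoc_castSucc]; exact (hne b i j).symm
      · refine Fin.lastCases ?_ (fun b => ?_) b
        · intro _; rw [Fin.snoc_last, Fin.snoc_castSucc]; exact hne a i j
        · intro h; rw [Fin.snoc_castSucc, Fin.snoc_castSucc]
          exact hX2 a b i j (fun hab => h (congrArg _ hab))
    · intro a
      refine Fin.lastCases ?_ (fun a => ?_) a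
      · rw [Fin.snoc_last]; exact hx2
      · rw [Fin.snoc_castSucc]; exact hX3 a

/-- The graph used in the induction step. -/
def stepGraph {V : Type} (G : SimpleGraph V) (M : ℕ) : SimpleGraph (V ⊕ (Finset V × Fin M)) where
  Adj a b := match a, b with
    | Sum.inl u, Sum.inl v => G.Adj u v
    | Sum.inl u, Sum.inr S => u ∈ S.1
    | Sum.inr S, Sum.inl u => u ∈ S.1
    | Sum.inr _, Sum.inr _ => False
  symm := ⟨by
    rintro (u | S) (v | S') h
    · exact SimpleGraph.Adj.symm h
    · exact h
    · exact h
    · exact h⟩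
  loopless := ⟨by
    rintro (u | S) h
    · exact G.loopless.irrefl _ h
    · exact h⟩


lemma exists_Q (t D : ℕ) : ∃ Q : ℕ, ∀ b, Q ≤ b → D * (2 ^ t - 1) ^ b < (2 ^ t) ^ b := by
  have h1 : ((2 ^ t - 1 : ℕ) : ℝ) / ((2 ^ t : ℕ) : ℝ) < 1 := by
    rw [div_lt_one (by positivity)]
    have : 1 ≤ 2 ^ t := Nat.one_le_two_pow
    exact_mod_cast Nat.sub_lt (by positivity) (by norm_num)
  obtain ⟨Q, hQ⟩ := exists_pow_lt_of_lt_one (show (0 : ℝ) < 1 / (D + 1) by positivity) h1
  refine ⟨Q, fun b hb => ?_⟩
  have h2 : (((2 ^ t - 1 : ℕ) : ℝ) / ((2 ^ t : ℕ) : ℝ)) ^ b < 1 / (D + 1) := by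
    refine lt_of_le_of_lt ?_ hQ
    exact pow_le_pow_of_le_one (by positivity) h1.le hb
  rw [div_pow, div_lt_div_iff₀ (by positivity) (by positivity)] at h2
  have h3 : ((2 ^ t - 1) ^ b * (D + 1) : ℕ) < (1 * (2 ^ t) ^ b : ℕ) := by
    exact_mod_cast h2
  calc D * (2 ^ t - 1) ^ b ≤ (2 ^ t - 1) ^ b * (D + 1) := by
        rw [mul_comm]; exact Nat.mul_le_mul_left _ (by omega)
    _ < 1 * (2 ^ t) ^ b := h3
    _ = (2 ^ t) ^ b := one_mul _

lemma exists_universal (m : ℕ) : ∀ k D n₀ : ℕ, ∃ (V : Type) (_ : Fintype V) (_ : DecidableEq V)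
    (G : SimpleGraph V) (p : V → Fin k), Universal k m D n₀ V G p := by
  intro k
  induction k with
  | zero =>
    intro D n₀
    refine ⟨Empty, inferInstance, inferInstance, ⊥, fun v => v.elim, ?_, ?_, ?_⟩
    · intro u; exact u.elim
    · intro i; exact i.elim0
    · intro F _ _ _ P _
      exact ⟨fun i => i.elim0, fun i => i.elim0, fun i => i.elim0⟩
  | succ k ih =>
    intro D n₀
    obtain ⟨Q, hQ⟩ := exists_Q (k * m) D
    set R := m * Q + 1 with hR
    obtain ⟨V, iF, iD, G, p, hU⟩ := ih (2 * D) (max n₀ (2 * D * R))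
    have hU' : Universal k m (2 * D) (2 * D * R) V G p :=
      ⟨hU.1, fun i => (le_max_right _ _).trans (hU.2.1 i), hU.2.2⟩
    let M := n₀ + 1
    let V' := V ⊕ (Finset V × Fin M)
    let p' : V' → Fin (k + 1) := Sum.elim (fun v => (p v).castSucc) (fun _ => Fin.last k)
    have hfl : ∀ i : Fin k, (univ.filter fun v : V' => p' v = i.castSucc)
        = (univ.filter fun v : V => p v = i).map ⟨Sum.inl, Sum.inl_injective⟩ := by
      intro i
      ext v
      rcases v with v | S
      · simp [p']
      · simp [p', (Fin.castSucc_lt_last i).ne']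
    have hfr : (univ.filter fun v : V' => p' v = Fin.last k)
        = (univ : Finset (Finset V × Fin M)).map ⟨Sum.inr, Sum.inr_injective⟩ := by
      ext v
      rcases v with v | S
      · simp [p', (Fin.castSucc_lt_last _).ne]
      · simp [p']
    have hcl : ∀ i : Fin k, (univ.filter fun v : V' => p' v = i.castSucc).card
        = (univ.filter fun v : V => p v = i).card := by
      intro i; rw [hfl, card_map]
    have hcr : (univ.filter fun v : V' => p' v = Fin.last k).card
        = 2 ^ Fintype.card V * M := by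
      rw [hfr, card_map, card_univ, Fintype.card_prod, Fintype.card_finset, Fintype.card_fin]
    refine ⟨V', inferInstance, inferInstance, stepGraph G M, p', ?_, ?_, ?_⟩
    · rintro (u | S) (v | S') h
      · intro hp
        exact hU.1 u v h (Fin.castSucc_injective k hp)
      · exact (Fin.castSucc_lt_last _).ne
      · exact (Fin.castSucc_lt_last _).ne'
      · exact absurd h (by simp [stepGraph])
    · intro i
      refine Fin.lastCases ?_ (fun i => ?_) i
      · rw [hcr]
        have : 1 ≤ 2 ^ Fintype.card V := Nat.one_le_two_pow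
        calc n₀ ≤ 1 * M := by omega
          _ ≤ _ := Nat.mul_le_mul_right _ this
      · rw [hcl]
        exact (le_max_left _ _).trans (hU.2.1 i)
    · intro F hF hFd hFD P hP
      -- the sets in the old parts
      let F₀ : Fin k → Fin m → Finset V := fun i j =>
        univ.filter fun v => (Sum.inl v : V') ∈ F i.castSucc j
      have hF₀ : ∀ i j, ∀ v ∈ F₀ i j, p v = i := by
        intro i j v hv
        have := hF i.castSucc j _ (mem_filter.mp hv).2
        exact Fin.castSucc_injective k this
      have hF₀d : ∀ i j j', j ≠ j' → Disjoint (F₀ i j) (F₀ i j') := by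
        intro i j j' hjj
        rw [Finset.disjoint_left]
        intro v hv hv'
        exact Finset.disjoint_left.mp (hFd i.castSucc j j' hjj) (mem_filter.mp hv).2
          (mem_filter.mp hv').2
      have hF₀c : ∀ i j, (F₀ i j).card = (F i.castSucc j).card := by
        intro i j
        have : F i.castSucc j = (F₀ i j).map ⟨Sum.inl, Sum.inl_injective⟩ := by
          ext v
          rcases v with v | S
          · simp [F₀]
          · simp only [mem_map, Function.Embedding.coeFn_mk, reduceCtorEq, and_false,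
              exists_false, iff_false]
            intro h
            have := hF _ _ _ h
            exact (Fin.castSucc_lt_last i).ne' this
        rw [this, card_map]
      have hF₀D : ∀ i j, (univ.filter fun v => p v = i).card ≤ D * (F₀ i j).card := by
        intro i j
        rw [hF₀c, ← hcl]
        exact hFD i.castSucc j
      obtain ⟨X, hX1, hX2, hX3⟩ := many_tuples hU' F₀ hF₀ hF₀d hF₀D
        (fun i j i' j' => P i.castSucc j i'.castSucc j') (fun i j i' j' => hP _ _ _ _) R le_rfl
      -- the new part
      classical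
      let F₁ : Fin m → Finset (Finset V) := fun j =>
        univ.filter fun S => ∃ c : Fin M, (Sum.inr (S, c) : V') ∈ F (Fin.last k) j
      have hF₁ : ∀ j, 2 ^ Fintype.card V ≤ D * (F₁ j).card := by
        intro j
        have h1 := hFD (Fin.last k) j
        rw [hcr] at h1
        have h2 : (F (Fin.last k) j).card ≤ ((F₁ j) ×ˢ (univ : Finset (Fin M))).card := by
          refine (card_le_card (t := ((F₁ j) ×ˢ (univ : Finset (Fin M))).map
            ⟨Sum.inr, Sum.inr_injective⟩) ?_).trans (by rw [card_map])
          intro v hv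
          rcases v with v | S
          · exact absurd (hF _ _ _ hv) (Fin.castSucc_lt_last _).ne
          · simp only [mem_map, mem_product, mem_univ, and_true, Function.Embedding.coeFn_mk,
              Sum.inr.injEq, exists_eq_right]
            exact mem_filter.mpr ⟨mem_univ _, S.2, hv⟩
        rw [card_product, card_univ, Fintype.card_fin] at h2
        have h3 : 2 ^ Fintype.card V * M ≤ (D * (F₁ j).card) * M :=
          calc _ ≤ _ := h1
            _ ≤ D * ((F₁ j).card * M) := Nat.mul_le_mul_left _ h2
            _ = _ := by ring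
        exact Nat.le_of_mul_le_mul_right h3 (by omega)
      let T : Fin R → Finset V := fun a => univ.image fun ij : Fin k × Fin m => X a ij.1 ij.2
      let A : Fin m → Fin R → Finset V := fun j₀ a =>
        (univ.filter fun ij : Fin k × Fin m => P ij.1.castSucc ij.2 (Fin.last k) j₀).image
          fun ij => X a ij.1 ij.2
      have hXinj : ∀ a b i j i' j', X a i j = X b i' j' → a = b ∧ i = i' ∧ j = j' := by
        intro a b i j i' j' h
        have hi : i = i' := by
          rw [← hF₀ i j _ (hX1 a i j), ← hF₀ i' j' _ (hX1 b i' j'), h]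
        subst hi
        have hj : j = j' := by
          by_contra hne
          exact Finset.disjoint_left.mp (hF₀d i j j' hne) (hX1 a i j) (h ▸ hX1 b i j')
        subst hj
        refine ⟨?_, rfl, rfl⟩
        by_contra hne
        exact hX2 a b i j hne h
      have hTc : ∀ a, (T a).card ≤ k * m := by
        intro a
        refine card_image_le.trans ?_
        rw [card_univ, Fintype.card_prod, Fintype.card_fin, Fintype.card_fin]
      have hTd : ∀ a b, a ≠ b → Disjoint (T a) (T b) := by
        intro a b hab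
        rw [Finset.disjoint_left]
        intro v hv hv'
        obtain ⟨ij, _, h1⟩ := mem_image.mp hv
        obtain ⟨ij', _, h2⟩ := mem_image.mp hv'
        exact hab (hXinj a b _ _ _ _ (h1.trans h2.symm)).1
      have hAT : ∀ j₀ a, A j₀ a ⊆ T a := by
        intro j₀ a
        exact image_subset_image (filter_subset _ _)
      let Bad : Fin m → Finset (Fin R) := fun j₀ =>
        univ.filter fun a => ∀ S ∈ F₁ j₀, S ∩ T a ≠ A j₀ a
      have hBad : ∀ j₀, (Bad j₀).card ≤ Q := by
        intro j₀
        by_contra hcon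
        push Not at hcon
        have h1 := card_avoid (k * m) T (A j₀) (Bad j₀) (fun r _ => hTc r) (fun r _ => hAT j₀ r)
          (fun r _ r' _ h => hTd r r' h)
        have h2 : (F₁ j₀).card ≤ ((univ : Finset (Finset V)).filter
            fun S => ∀ r ∈ Bad j₀, S ∩ T r ≠ A j₀ r).card := by
          apply card_le_card
          intro S hS
          rw [mem_filter]
          exact ⟨mem_univ _, fun r hr => (mem_filter.mp hr).2 S hS⟩
        have h3 := hF₁ j₀
        have h4 := hQ (Bad j₀).card hcon.le
        have h5 : 2 ^ Fintype.card V * (2 ^ (k * m)) ^ (Bad j₀).card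
            ≤ 2 ^ Fintype.card V * (D * (2 ^ (k * m) - 1) ^ (Bad j₀).card) := by
          calc 2 ^ Fintype.card V * (2 ^ (k * m)) ^ (Bad j₀).card
              ≤ (D * (F₁ j₀).card) * (2 ^ (k * m)) ^ (Bad j₀).card := Nat.mul_le_mul_right _ h3
            _ ≤ D * (((univ : Finset (Finset V)).filter
                fun S => ∀ r ∈ Bad j₀, S ∩ T r ≠ A j₀ r).card * (2 ^ (k * m)) ^ (Bad j₀).card) := by
                rw [mul_assoc]
                exact Nat.mul_le_mul_left _ (Nat.mul_le_mul_right _ h2)
            _ ≤ D * ((2 ^ (k * m) - 1) ^ (Bad j₀).card * 2 ^ Fintype.card V) := by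
                refine Nat.mul_le_mul_left _ ?_
                convert h1
            _ = _ := by ring
        have h6 := Nat.le_of_mul_le_mul_left h5 (by positivity)
        omega
      obtain ⟨a, ha⟩ : ∃ a : Fin R, ∀ j₀, a ∉ Bad j₀ := by
        by_contra hcon
        push Not at hcon
        have h1 : (univ : Finset (Fin R)) ⊆ univ.biUnion Bad := by
          intro a _
          obtain ⟨j₀, hj₀⟩ := hcon a
          exact mem_biUnion.mpr ⟨j₀, mem_univ _, hj₀⟩
        have h2 := card_le_card h1
        have h3 : (univ.biUnion Bad).card ≤ m * Q := by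
          refine (card_biUnion_le_card_mul _ _ Q fun j₀ _ => hBad j₀).trans ?_
          rw [card_univ, Fintype.card_fin]
        rw [card_univ, Fintype.card_fin] at h2
        omega
      have hS : ∀ j₀, ∃ S ∈ F₁ j₀, S ∩ T a = A j₀ a := by
        intro j₀
        have := ha j₀
        simp only [Bad, mem_filter, mem_univ, true_and, not_forall] at this
        obtain ⟨S, hS, h⟩ := this
        exact ⟨S, hS, not_not.mp h⟩
      choose S hS1 hS2 using hS
      have hc : ∀ j₀, ∃ c : Fin M, (Sum.inr (S j₀, c) : V') ∈ F (Fin.last k) j₀ := by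
        intro j₀
        exact (mem_filter.mp (hS1 j₀)).2
      choose c hc using hc
      have hmem : ∀ i j j₀, X a i j ∈ S j₀ ↔ P i.castSucc j (Fin.last k) j₀ := by
        intro i j j₀
        have hT : X a i j ∈ T a := mem_image.mpr ⟨(i, j), mem_univ _, rfl⟩
        have h1 : X a i j ∈ S j₀ ↔ X a i j ∈ A j₀ a := by
          rw [← hS2 j₀, mem_inter]
          exact ⟨fun h => ⟨h, hT⟩, fun h => h.1⟩
        rw [h1]
        simp only [A, mem_image, mem_filter, mem_univ, true_and]
        constructor
        · rintro ⟨ij, h2, h3⟩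
          obtain ⟨_, hi, hj⟩ := hXinj _ _ _ _ _ _ h3
          rw [← hi, ← hj]; exact h2
        · intro h2
          exact ⟨(i, j), h2, rfl⟩
      refine ⟨fun i j => Fin.lastCases (motive := fun _ => V') (Sum.inr (S j, c j))
        (fun i => Sum.inl (X a i j)) i, ?_, ?_⟩
      · intro i j
        refine Fin.lastCases ?_ (fun i => ?_) i
        · simp only [Fin.lastCases_last]; exact hc j
        · simp only [Fin.lastCases_castSucc]
          exact (mem_filter.mp (hX1 a i j)).2
      · intro i j i' j'
        refine Fin.lastCases ?_ (fun i => ?_) i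
        · refine Fin.lastCases ?_ (fun i' => ?_) i'
          · intro h; exact absurd rfl h
          · intro _
            simp only [Fin.lastCases_last, Fin.lastCases_castSucc]
            rw [hP]
            exact hmem i' j' j
        · refine Fin.lastCases ?_ (fun i' => ?_) i'
          · intro _
            simp only [Fin.lastCases_last, Fin.lastCases_castSucc]
            exact hmem i j j'
          · intro h
            simp only [Fin.lastCases_castSucc]
            exact hX3 a i j i' j' (fun hii => h (congrArg _ hii))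



lemma exists_sigma : ∀ (n : ℕ) (I : Type) [Fintype I] [DecidableEq I], Fintype.card I = n →
    ∀ q : I → ℕ → ℕ, ∃ σ : Fin n ≃ I, ∀ a b : Fin n, a < b → q (σ a) a ≤ q (σ b) a := by
  intro n
  induction n with
  | zero =>
    intro I _ _ hI q
    have : IsEmpty I := Fintype.card_eq_zero_iff.mp hI
    exact ⟨Equiv.equivOfIsEmpty _ _, fun a => a.elim0⟩
  | succ n ih =>
    intro I _ _ hI q
    have : Nonempty I := Fintype.card_pos_iff.mp (by omega)
    obtain ⟨i₀, hi₀⟩ := Finite.exists_min fun i => q i 0
    have hc : Fintype.card {i : I // i ≠ i₀} = n := by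
      rw [Fintype.card_subtype_compl, Fintype.card_subtype_eq, hI]; rfl
    obtain ⟨σ', hσ'⟩ := ih {i : I // i ≠ i₀} hc fun i a => q i (a + 1)
    let σ : Fin (n + 1) ≃ I :=
      (finSuccEquiv n).trans ((Equiv.optionCongr σ').trans (Equiv.optionSubtypeNe i₀))
    have h0 : σ 0 = i₀ := by simp [σ]
    have hs : ∀ a : Fin n, σ a.succ = σ' a := by intro a; simp [σ]
    refine ⟨σ, fun a b hab => ?_⟩
    revert hab
    refine Fin.cases ?_ (fun a => ?_) a
    · intro _
      rw [h0]
      exact hi₀ _
    · refine Fin.cases ?_ (fun b => ?_) b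
      · intro h; exact absurd h (by simp)
      · intro h
        rw [hs, hs]
        exact hσ' a b (Fin.succ_lt_succ_iff.mp h)

/-- From an arbitrary ordering of a graph with large parts one gets separated chunks. -/
lemma order_extract {k m N : ℕ} (hk : 1 ≤ k) (hm : 1 ≤ m) {V : Type} [Fintype V] [DecidableEq V]
    (p : V → Fin k) (hp : ∀ i, k * m ≤ (univ.filter fun v => p v = i).card) (e : V ≃ Fin N) :
    ∃ (σ : Fin k ≃ Fin k) (F : Fin k → Fin m → Finset V), (∀ i j, ∀ v ∈ F i j, p v = i) ∧
      (∀ i j j', j ≠ j' → Disjoint (F i j) (F i j')) ∧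
      (∀ i j, (univ.filter fun v => p v = i).card ≤ 2 * (k * m) * (F i j).card) ∧
      ∀ a j a' j' v v', v ∈ F (σ a) j → v' ∈ F (σ a') j' → (a < a' ∨ (a = a' ∧ j < j')) →
        e v < e v' := by
  classical
  let s : Fin k → Finset (Fin N) := fun i => (univ.filter fun v => p v = i).map e.toEmbedding
  have hs : ∀ i, (s i).card = (univ.filter fun v => p v = i).card := fun i => card_map _
  let g : (i : Fin k) → Fin (s i).card ↪o Fin N := fun i => (s i).orderEmbOfFin rfl
  let c : Fin k → ℕ := fun i => (s i).card / (k * m)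
  have hkm : 0 < k * m := Nat.mul_pos hk hm
  have hc1 : ∀ i, 1 ≤ c i := fun i => by
    rw [Nat.le_div_iff_mul_le hkm, one_mul, hs]; exact hp i
  have hc2 : ∀ i, c i * (k * m) ≤ (s i).card := fun i => Nat.div_mul_le_self _ _
  have hc3 : ∀ i, (s i).card < (c i + 1) * (k * m) := fun i => by
    rw [mul_comm]
    exact Nat.lt_mul_div_succ _ hkm
  have hvert : ∀ i (r : Fin (s i).card), p (e.symm (g i r)) = i := by
    intro i r
    have h1 : g i r ∈ s i := Finset.orderEmbOfFin_mem _ _ _
    obtain ⟨v, hv, h2⟩ := mem_map.mp h1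
    rw [← h2]
    simpa using hv
  let q : Fin k → ℕ → ℕ := fun i a =>
    if h : (a + 1) * (m * c i) < (s i).card then (g i ⟨(a + 1) * (m * c i), h⟩ : Fin N).val else N
  obtain ⟨σ, hσ⟩ := exists_sigma k (Fin k) (Fintype.card_fin k) q
  let F : Fin k → Fin m → Finset V := fun i j =>
    (univ.filter fun r : Fin (s i).card =>
      (σ.symm i : ℕ) * (m * c i) + j * c i ≤ r.val ∧
        r.val < (σ.symm i : ℕ) * (m * c i) + (j + 1) * c i).image fun r => e.symm (g i r)
  have hmemF : ∀ i j v, v ∈ F i j ↔ ∃ r : Fin (s i).card,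
      ((σ.symm i : ℕ) * (m * c i) + j * c i ≤ r.val ∧
        r.val < (σ.symm i : ℕ) * (m * c i) + (j + 1) * c i) ∧ e.symm (g i r) = v := by
    intro i j v
    simp only [F, mem_image, mem_filter, mem_univ, true_and]
  have hbound : ∀ (i : Fin k) (a : Fin k) (j : Fin m),
      (a : ℕ) * (m * c i) + (j + 1) * c i ≤ (s i).card := by
    intro i a j
    have h1 : ((j : ℕ) + 1) * c i ≤ m * c i := Nat.mul_le_mul_right _ j.2
    have h2 : ((a : ℕ) + 1) * (m * c i) ≤ k * (m * c i) := Nat.mul_le_mul_right _ a.2
    have h3 := hc2 i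
    calc (a : ℕ) * (m * c i) + (j + 1) * c i ≤ (a : ℕ) * (m * c i) + m * c i := by omega
      _ = ((a : ℕ) + 1) * (m * c i) := by ring
      _ ≤ k * (m * c i) := h2
      _ = c i * (k * m) := by ring
      _ ≤ _ := h3
  refine ⟨σ, F, ?_, ?_, ?_, ?_⟩
  · intro i j v hv
    obtain ⟨r, _, rfl⟩ := (hmemF i j v).mp hv
    exact hvert i r
  · intro i j j' hjj
    rw [Finset.disjoint_left]
    intro v hv hv'
    obtain ⟨r, ⟨h1, h2⟩, h3⟩ := (hmemF i j v).mp hv
    obtain ⟨r', ⟨h1', h2'⟩, h3'⟩ := (hmemF i j' v).mp hv'
    have hr : r = r' := (g i).injective (e.symm.injective (h3.trans h3'.symm))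
    subst hr
    apply hjj
    rcases lt_trichotomy j j' with h | h | h
    · have : ((j : ℕ) + 1) * c i ≤ (j' : ℕ) * c i := Nat.mul_le_mul_right _ h
      omega
    · exact h
    · have : ((j' : ℕ) + 1) * c i ≤ (j : ℕ) * c i := Nat.mul_le_mul_right _ h
      omega
  · intro i j
    rw [← hs]
    have h1 : c i ≤ (F i j).card := by
      have hA : ∀ l : Fin (c i), (σ.symm i : ℕ) * (m * c i) + j * c i + l < (s i).card := by
        intro l
        have := hbound i (σ.symm i) j
        have hl := l.2
        have h5 : ((j : ℕ) + 1) * c i = (j : ℕ) * c i + c i := by ring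
        omega
      have h2 := Finset.card_le_card_of_injOn (s := (univ : Finset (Fin (c i)))) (t := F i j)
        (fun l => e.symm (g i ⟨(σ.symm i : ℕ) * (m * c i) + j * c i + l, hA l⟩))
        (fun l _ => by
          rw [mem_coe, hmemF]
          refine ⟨_, ⟨?_, ?_⟩, rfl⟩
          · simp
          · have hl := l.2
            have h5 : ((j : ℕ) + 1) * c i = (j : ℕ) * c i + c i := by ring
            simp only
            omega)
        (fun l _ l' _ hll => by
          have h3 := (g i).injective (e.symm.injective hll)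
          have h4 := congrArg Fin.val h3
          simp only at h4
          exact Fin.ext (by omega))
      simpa using h2
    have h2 := hc3 i
    have h3 := hc1 i
    calc (s i).card ≤ (c i + 1) * (k * m) := h2.le
      _ ≤ (2 * c i) * (k * m) := Nat.mul_le_mul_right _ (by omega)
      _ = 2 * (k * m) * c i := by ring
      _ ≤ 2 * (k * m) * (F i j).card := Nat.mul_le_mul_left _ h1
  · intro a j a' j' v v' hv hv' hlt
    obtain ⟨r, ⟨h1, h2⟩, h3⟩ := (hmemF _ j v).mp hv
    obtain ⟨r', ⟨h1', h2'⟩, h3'⟩ := (hmemF _ j' v').mp hv'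
    rw [← h3, ← h3', e.apply_symm_apply, e.apply_symm_apply]
    rw [σ.symm_apply_apply] at h1 h2 h1' h2'
    rcases hlt with hlt | ⟨rfl, hlt⟩
    · -- different parts
      have hsmall : ∀ i, ((a : ℕ) + 1) * (m * c i) < (s i).card := by
        intro i
        have h4 : ((a : ℕ) + 1) + 1 ≤ k := by
          have := a'.2
          have h5 : (a : ℕ) < a' := hlt
          omega
        have h5 : ((a : ℕ) + 1 + 1) * (m * c i) ≤ k * (m * c i) := Nat.mul_le_mul_right _ h4
        have h6 : 0 < m * c i := Nat.mul_pos hm (hc1 i)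
        have h7 := hc2 i
        have h8 : k * (m * c i) = c i * (k * m) := by ring
        have h9 : ((a : ℕ) + 1 + 1) * (m * c i) = ((a : ℕ) + 1) * (m * c i) + m * c i := by ring
        omega
      have hq := hσ a a' hlt
      simp only [q, dif_pos (hsmall (σ a)), dif_pos (hsmall (σ a'))] at hq
      have hb1 : g (σ a) r < g (σ a) ⟨((a : ℕ) + 1) * (m * c (σ a)), hsmall _⟩ := by
        rw [OrderEmbedding.lt_iff_lt, Fin.lt_def]
        have h4 : ((j : ℕ) + 1) * c (σ a) ≤ m * c (σ a) := Nat.mul_le_mul_right _ j.2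
        have h5 : ((a : ℕ) + 1) * (m * c (σ a)) = (a : ℕ) * (m * c (σ a)) + m * c (σ a) := by ring
        simp only
        omega
      have hb2 : g (σ a') ⟨((a : ℕ) + 1) * (m * c (σ a')), hsmall _⟩ ≤ g (σ a') r' := by
        rw [OrderEmbedding.le_iff_le, Fin.le_def]
        have h4 : ((a : ℕ) + 1) * (m * c (σ a')) ≤ (a' : ℕ) * (m * c (σ a')) :=
          Nat.mul_le_mul_right _ hlt
        simp only
        omega
      exact lt_of_lt_of_le (lt_of_lt_of_le hb1 (Fin.le_def.mpr hq)) hb2
    · rw [OrderEmbedding.lt_iff_lt, Fin.lt_def]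
      have : ((j : ℕ) + 1) * c (σ a) ≤ (j' : ℕ) * c (σ a) := Nat.mul_le_mul_right _ hlt
      omega



/-- A circularly ordered graph, up to isomorphism: a graph on `Fin n`, whose vertices are taken in
the circular order `0, 1, …, n-1`. -/
abbrev Pattern : Type := Σ n : ℕ, SimpleGraph (Fin n)

/-- Going round the circle from `x` one meets first `y` and then `z`. -/
def Cyc {n : ℕ} (x y z : Fin n) : Prop :=
  (x < y ∧ y < z) ∨ (y < z ∧ z < x) ∨ (z < x ∧ x < y)

/-- The circularly ordered graph `P` occurs in the graph `G` with circular ordering `c`: there is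
an induced copy of `P` that preserves the circular order. -/
def Occurs (P : Pattern) {V : Type} [Fintype V] (G : SimpleGraph V)
    (c : V ≃ Fin (Fintype.card V)) : Prop :=
  ∃ φ : Fin P.1 → V, Function.Injective φ ∧ (∀ u v, P.2.Adj u v ↔ G.Adj (φ u) (φ v)) ∧
    ∀ x y z, Cyc x y z ↔ Cyc (c (φ x)) (c (φ y)) (c (φ z))

/-- Circular clique. -/
def circ (n q : ℕ) : SimpleGraph (Fin (n + 1)) where
  Adj i j := i ≠ j ∧ ((q ≤ i.val - j.val ∧ i.val - j.val ≤ n + 1 - q ∧ j.val < i.val) ∨
    (q ≤ j.val - i.val ∧ j.val - i.val ≤ n + 1 - q ∧ i.val < j.val))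
  symm := ⟨by
    rintro i j ⟨h, h1 | h1⟩
    · exact ⟨h.symm, Or.inr h1⟩
    · exact ⟨h.symm, Or.inl h1⟩⟩
  loopless := ⟨fun i h => h.1 rfl⟩

lemma circ_adj_of_lt {n q : ℕ} {i j : Fin (n + 1)} (h : i.val < j.val) :
    (circ n q).Adj i j ↔ q ≤ j.val - i.val ∧ j.val - i.val ≤ n + 1 - q := by
  simp only [circ]
  constructor
  · rintro ⟨_, h1 | h1⟩
    · omega
    · exact ⟨h1.1, h1.2.1⟩
  · rintro ⟨h1, h2⟩
    exact ⟨fun h' => by rw [h'] at h; omega, Or.inr ⟨h1, h2, h⟩⟩

/-- The rotation taking `x` to `0`. -/
def rot {n : ℕ} (x i : Fin (n + 1)) : Fin (n + 1) :=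
  if h : i.val < x.val then ⟨i.val + (n + 1) - x.val, by omega⟩ else ⟨i.val - x.val, by omega⟩

lemma rot_val {n : ℕ} (x i : Fin (n + 1)) :
    (rot x i).val = if i.val < x.val then i.val + (n + 1) - x.val else i.val - x.val := by
  unfold rot
  split_ifs <;> rfl

lemma rot_inj {n : ℕ} (x : Fin (n + 1)) : Function.Injective (rot x) := by
  intro i j h
  have h1 := congrArg Fin.val h
  rw [rot_val, rot_val] at h1
  have hi := i.2
  have hj := j.2
  have hx := x.2
  apply Fin.ext
  split_ifs at h1 <;> omega

lemma rot_ne_zero {n : ℕ} {x i : Fin (n + 1)} (h : i ≠ x) : (rot x i).val ≠ 0 := by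
  have h1 : i.val ≠ x.val := fun h' => h (Fin.ext h')
  rw [rot_val]
  have hi := i.2
  have hx := x.2
  split_ifs <;> omega

lemma rot_cyc {n : ℕ} (t x y z : Fin (n + 1)) :
    Cyc x y z ↔ Cyc (rot t x) (rot t y) (rot t z) := by
  unfold Cyc
  simp only [Fin.lt_def, rot_val]
  have hx := x.2
  have hy := y.2
  have hz := z.2
  have ht := t.2
  split_ifs <;> omega

lemma rot_adj {n q : ℕ} (hq : 1 ≤ q) (t x y : Fin (n + 1)) :
    (circ n q).Adj x y ↔ (circ n q).Adj (rot t x) (rot t y) := by
  have h0 : (rot t x ≠ rot t y) ↔ x ≠ y := (rot_inj t).ne_iff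
  simp only [circ, h0, rot_val]
  have hx := x.2
  have hy := y.2
  have ht := t.2
  by_cases hxy : x = y
  · simp [hxy]
  · have hxy' : x.val ≠ y.val := fun h => hxy (Fin.ext h)
    simp only [ne_eq, hxy, not_false_eq_true, true_and]
    split_ifs <;> omega

lemma circ_not_colorable {k q : ℕ} (hk : 2 ≤ k) (hq : 1 ≤ q) : ¬ (circ (k * q) q).Colorable k := by
  rintro ⟨C⟩
  have hkq : q ≤ k * q := by nlinarith
  have h2q : 2 * q ≤ k * q := Nat.mul_le_mul_right _ hk
  have step : ∀ i : ℕ, ∀ (h : i + 1 < k * q + 1),
      C ⟨i + 1, h⟩ = C ⟨i, by omega⟩ := by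
    intro i h
    let w : ℕ → ℕ := fun a => if i + 1 + a * q ≤ k * q then i + 1 + a * q
      else i + 1 + a * q - (k * q + 1)
    have haq : ∀ a, a ≤ k → a * q ≤ k * q := fun a ha => Nat.mul_le_mul_right _ ha
    have hw : ∀ a, a ≤ k → w a < k * q + 1 := by
      intro a ha
      have := haq a ha
      simp only [w]
      split_ifs <;> omega
    have hadj : ∀ a b (ha : a < b) (hb : b ≤ k), b - a ≤ k - 1 →
        (circ (k * q) q).Adj ⟨w a, hw a (by omega)⟩ ⟨w b, hw b hb⟩ := by
      intro a b ha hb hba
      have h1 : a * q + q ≤ b * q := by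
        calc a * q + q = (a + 1) * q := by ring
          _ ≤ b * q := Nat.mul_le_mul_right _ ha
      have h2 : b * q + q ≤ a * q + k * q := by
        calc b * q + q = (b + 1) * q := by ring
          _ ≤ (a + k) * q := Nat.mul_le_mul_right _ (by omega)
          _ = _ := by ring
      have h3 := haq a (by omega)
      have h4 := haq b hb
      simp only [circ, ne_eq, Fin.mk.injEq, w]
      split_ifs <;> omega
    have hinj : Function.Injective fun a : Fin k => C ⟨w a, hw a a.2.le⟩ := by
      intro a b hab
      by_contra hne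
      rcases lt_or_gt_of_ne hne with h1 | h1
      · exact C.valid (hadj a b h1 b.2.le (by omega)) hab
      · exact C.valid (hadj b a h1 a.2.le (by omega)) hab.symm
    have hsurj := Finite.injective_iff_surjective.mp hinj
    obtain ⟨a, ha⟩ := hsurj (C ⟨w k, hw k le_rfl⟩)
    have ha0 : a.val = 0 := by
      by_contra hne
      exact C.valid (hadj a k a.2 le_rfl (by omega)) ha
    have hw0 : w 0 = i + 1 := by simp only [w]; split_ifs <;> omega
    have hwk : w k = i := by simp only [w]; split_ifs <;> omega
    have h5 : (⟨w a, hw a a.2.le⟩ : Fin (k * q + 1)) = ⟨i + 1, h⟩ := by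
      apply Fin.ext; simp only [ha0, hw0]
    have h6 : (⟨w k, hw k le_rfl⟩ : Fin (k * q + 1)) = ⟨i, by omega⟩ := by
      apply Fin.ext; simp only [hwk]
    simp only [h5, h6] at ha
    exact ha
  have hall : ∀ i : ℕ, ∀ (h : i < k * q + 1), C ⟨i, h⟩ = C ⟨0, by omega⟩ := by
    intro i
    induction i with
    | zero => intro _; rfl
    | succ i ih => intro h; rw [step i h]; exact ih (by omega)
  have hadj : (circ (k * q) q).Adj ⟨0, by omega⟩ ⟨q, by omega⟩ := by
    rw [circ_adj_of_lt (by simp only; omega)]
    simp only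
    omega
  exact C.valid hadj (hall q (by omega)).symm


lemma Cyc.ne {n : ℕ} {x y z : Fin n} (h : Cyc x y z) : x ≠ y ∧ y ≠ z ∧ x ≠ z := by
  unfold Cyc at h
  simp only [Fin.lt_def] at h
  refine ⟨fun h' => ?_, fun h' => ?_, fun h' => ?_⟩ <;> rw [h'] at h <;> omega

lemma forward_one : ∃ F : Set Pattern, F.Finite ∧ ∀ (V : Type) [Fintype V] (G : SimpleGraph V),
    G.Colorable 1 ↔ ∃ c : V ≃ Fin (Fintype.card V), ∀ P ∈ F, ¬ Occurs P G c := by
  refine ⟨{(⟨2, ⊤⟩ : Pattern)}, Set.finite_singleton _, fun V _ G => ?_⟩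
  constructor
  · rintro ⟨C⟩
    refine ⟨Fintype.equivFin V, ?_⟩
    rintro P hP ⟨φ, -, h, -⟩
    rw [Set.mem_singleton_iff] at hP
    subst hP
    have h1 : G.Adj (φ 0) (φ 1) := by
      rw [← h]
      simp
    exact C.valid h1 (Subsingleton.elim _ _)
  · rintro ⟨c, hc⟩
    have hno : ∀ u v, ¬ G.Adj u v := by
      intro u v huv
      refine hc _ (Set.mem_singleton _) ⟨![u, v], ?_, ?_, ?_⟩
      · intro a b hab
        have hne := huv.ne
        fin_cases a <;> fin_cases b
        · rfl
        · exact absurd hab hne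
        · exact absurd hab.symm hne
        · rfl
      · intro a b
        fin_cases a <;> fin_cases b
        · simp
        · simp [huv]
        · simp [huv.symm]
        · simp
      · intro x y z
        have h3 : ¬ (x ≠ y ∧ y ≠ z ∧ x ≠ z) := by
          revert x y z
          decide
        constructor
        · intro h; exact absurd h.ne h3
        · intro h
          have h4 := h.ne
          refine absurd ⟨fun e => h4.1 (by rw [e]), fun e => h4.2.1 (by rw [e]),
            fun e => h4.2.2 (by rw [e])⟩ h3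
    exact ⟨SimpleGraph.Coloring.mk (fun _ => 0) (fun {u v} h => absurd h (hno u v))⟩

/-- There is a `k`-colourable graph every circular ordering of which contains the circular clique
`circ (k*q) q` minus a vertex. -/
lemma exists_host {k q : ℕ} (hk : 1 ≤ k) (hq : 1 ≤ q) :
    ∃ (V : Type) (_ : Fintype V) (G : SimpleGraph V), G.Colorable k ∧
      ∀ c : V ≃ Fin (Fintype.card V), ∃ θ : Fin (k * q + 1) → V,
        (∀ y y' : Fin (k * q + 1), y.val ≠ 0 → y'.val ≠ 0 → ((circ (k * q) q).Adj y y' ↔
          G.Adj (θ y) (θ y'))) ∧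
        ∀ y y' : Fin (k * q + 1), y.val ≠ 0 → y'.val ≠ 0 → y < y' → c (θ y) < c (θ y') := by
  classical
  obtain ⟨V, iF, iD, G, p, hU⟩ := exists_universal q k (2 * (k * q)) (k * q)
  refine ⟨V, iF, G, ⟨SimpleGraph.Coloring.mk p (fun {u v} h => hU.1 u v h)⟩, fun c => ?_⟩
  obtain ⟨σ, F, hF1, hF2, hF3, hF4⟩ := order_extract hk hq p hU.2.1 c
  -- the labels
  let lab : Fin k → Fin q → Fin (k * q + 1) := fun a j =>
    ⟨1 + (a : ℕ) * q + j, by
      have h1 : ((a : ℕ) + 1) * q ≤ k * q := Nat.mul_le_mul_right _ a.2
      have h2 : ((a : ℕ) + 1) * q = (a : ℕ) * q + q := by ring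
      have h3 := j.2
      omega⟩
  obtain ⟨x, hx1, hx2⟩ := hU.2.2 F hF1 hF2 hF3
    (fun i j i' j' => (circ (k * q) q).Adj (lab (σ.symm i) j) (lab (σ.symm i') j'))
    (fun i j i' j' => SimpleGraph.adj_comm _ _ _)
  -- coordinates of a label
  have hcoord : ∀ y : Fin (k * q + 1), y.val ≠ 0 → ∃ a : Fin k, ∃ j : Fin q, lab a j = y := by
    intro y hy
    have h1 : (y.val - 1) / q < k := by
      rw [Nat.div_lt_iff_lt_mul (by omega)]
      have := y.2
      omega
    refine ⟨⟨(y.val - 1) / q, h1⟩, ⟨(y.val - 1) % q, Nat.mod_lt _ (by omega)⟩, Fin.ext ?_⟩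
    simp only [lab]
    have h2 := Nat.div_add_mod (y.val - 1) q
    have h3 : q * ((y.val - 1) / q) = (y.val - 1) / q * q := mul_comm _ _
    omega
  let A : Fin (k * q + 1) → Fin k := fun y => if h : y.val ≠ 0 then (hcoord y h).choose
    else ⟨0, by omega⟩
  let J : Fin (k * q + 1) → Fin q := fun y => if h : y.val ≠ 0 then (hcoord y h).choose_spec.choose
    else ⟨0, by omega⟩
  have hlab : ∀ y : Fin (k * q + 1), y.val ≠ 0 → lab (A y) (J y) = y := by
    intro y hy
    simp only [A, J, dif_pos hy]
    exact (hcoord y hy).choose_spec.choose_spec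
  have hval : ∀ y : Fin (k * q + 1), y.val ≠ 0 → 1 + (A y : ℕ) * q + (J y : ℕ) = y.val := by
    intro y hy
    exact congrArg Fin.val (hlab y hy)
  refine ⟨fun y => x (σ (A y)) (J y), ?_, ?_⟩
  · intro y y' hy hy'
    by_cases hA : A y = A y'
    · -- same part: both sides false
      have h1 : ¬ G.Adj (x (σ (A y)) (J y)) (x (σ (A y')) (J y')) := by
        intro h
        apply hU.1 _ _ h
        rw [hF1 _ _ _ (hx1 _ _), hF1 _ _ _ (hx1 _ _), hA]
      have h2 : ¬ (circ (k * q) q).Adj y y' := by
        intro h
        have e1 := hval y hy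
        have e2 := hval y' hy'
        rw [hA] at e1
        have e3 := (J y).2
        have e4 := (J y').2
        obtain ⟨_, h | h⟩ := h <;> omega
      exact ⟨fun h => absurd h h2, fun h => absurd h h1⟩
    · have h1 := hx2 (σ (A y)) (J y) (σ (A y')) (J y') (fun h => hA (σ.injective h))
      rw [σ.symm_apply_apply, σ.symm_apply_apply, hlab y hy, hlab y' hy'] at h1
      exact h1.symm
  · intro y y' hy hy' hlt
    refine hF4 (A y) (J y) (A y') (J y') _ _ (hx1 _ _) (hx1 _ _) ?_
    have e1 := hval y hy
    have e2 := hval y' hy'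
    have e3 := (J y).2
    have e4 := (J y').2
    have hlt' : y.val < y'.val := hlt
    rcases lt_trichotomy (A y) (A y') with h | h | h
    · exact Or.inl h
    · right
      refine ⟨h, ?_⟩
      rw [h] at e1
      rw [Fin.lt_def]
      omega
    · exfalso
      have h5 : ((A y' : ℕ) + 1) * q ≤ (A y : ℕ) * q := Nat.mul_le_mul_right _ h
      have h6 : ((A y' : ℕ) + 1) * q = (A y' : ℕ) * q + q := by ring
      omega

/-- For `k ≥ 1`, the class of `k`-colourable graphs is described by a finite set of circularly
ordered graphs if and only if `k = 1`. -/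
theorem result (k : ℕ) (hk : 1 ≤ k) :
    (∃ F : Set Pattern, F.Finite ∧ ∀ (V : Type) [Fintype V] (G : SimpleGraph V),
      G.Colorable k ↔ ∃ c : V ≃ Fin (Fintype.card V), ∀ P ∈ F, ¬ Occurs P G c) ↔ k = 1 := by
  constructor
  · rintro ⟨F, hfin, hF⟩
    by_contra hk1
    have hk2 : 2 ≤ k := by omega
    -- a bound on the sizes of the patterns
    obtain ⟨s, hs⟩ : ∃ s : ℕ, ∀ P ∈ F, P.1 ≤ s := by
      obtain ⟨s, hs⟩ := (hfin.image Sigma.fst).bddAbove
      exact ⟨s, fun P hP => hs (Set.mem_image_of_mem _ hP)⟩
    let q := s + 1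
    have hq : 1 ≤ q := by omega
    -- the circular clique is not orderable
    have hnc := circ_not_colorable hk2 hq
    rw [hF] at hnc
    push Not at hnc
    obtain ⟨P, hP, φ, hφ1, hφ2, hφ3⟩ := hnc (finCongr (by simp))
    have hcyc0 : ∀ x y z, Cyc x y z ↔ Cyc (φ x) (φ y) (φ z) := by
      intro x y z
      rw [hφ3 x y z]
      unfold Cyc
      simp only [Fin.lt_def, finCongr_apply, Fin.val_cast]
    -- a missed vertex
    obtain ⟨t, ht⟩ : ∃ t, ∀ i, φ i ≠ t := by
      by_contra hcon
      push Not at hcon
      have h1 := Fintype.card_le_of_surjective φ hcon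
      rw [Fintype.card_fin, Fintype.card_fin] at h1
      have h2 := hs P hP
      have h3 : 1 * q ≤ k * q := Nat.mul_le_mul_right _ hk
      omega
    let ψ : Fin P.1 → Fin (k * q + 1) := fun i => rot t (φ i)
    have hψ0 : ∀ i, (ψ i).val ≠ 0 := fun i => rot_ne_zero (ht i)
    -- the host graph
    obtain ⟨V, iF, G, hcol, hG⟩ := exists_host (k := k) (q := q) hk hq
    rw [hF] at hcol
    obtain ⟨c, hc⟩ := hcol
    obtain ⟨θ, hθ1, hθ2⟩ := hG c
    have hlt : ∀ i j, ψ i < ψ j ↔ c (θ (ψ i)) < c (θ (ψ j)) := by
      intro i j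
      constructor
      · exact hθ2 _ _ (hψ0 i) (hψ0 j)
      · intro h
        by_contra hcon
        rcases eq_or_lt_of_le (not_lt.mp hcon) with h1 | h1
        · rw [h1] at h; exact lt_irrefl _ h
        · exact absurd (hθ2 _ _ (hψ0 j) (hψ0 i) h1) (not_lt.mpr h.le)
    refine hc P hP ⟨fun i => θ (ψ i), ?_, ?_, ?_⟩
    · intro i j hij
      by_contra hne
      have h1 : ψ i ≠ ψ j := fun h => hne (hφ1 (rot_inj t h))
      simp only at hij
      rcases lt_or_gt_of_ne h1 with h | h
      · have := (hlt i j).mp h
        rw [hij] at this; exact lt_irrefl _ this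
      · have := (hlt j i).mp h
        rw [hij] at this; exact lt_irrefl _ this
    · intro i j
      rw [hφ2, rot_adj hq t, hθ1 _ _ (hψ0 i) (hψ0 j)]
    · intro x y z
      rw [hcyc0, rot_cyc t]
      unfold Cyc
      rw [← hlt x y, ← hlt y z, ← hlt z x]
  · rintro rfl
    exact forward_one

end Pool.Agent.Results.MP_c7ad22_co.CircularObstructions
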